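import Pool.Agent.Lib_MP_d26ff6_al.Proof

/-!
Components of a nondegenerate linked alternating structure with a full element:
local components and fans.
-/

set_option autoImplicit false

namespace Pool.Agent.ETB

open CommonSlot QS

section
variable {V B : Type} [AddCommGroup V] [Module (ZMod 2) V] [AddCommGroup B] [Module (ZMod 2) B]

/-- the component `p B` has exactly one nonzero element -/
def IsLoc (p : B →ₗ[ZMod 2] B) : Prop := ∃ c, c ≠ 0 ∧ p c = c ∧ ∀ b, p b = 0 ∨ p b = c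

/-- the component is `D[t]` with `dim D ≥ 2` -/
def IsFan (q : V →ₗ[ZMod 2] V →ₗ[ZMod 2] B) (pv : V →ₗ[ZMod 2] V) (pb : B →ₗ[ZMod 2] B) : Prop :=
  ∃ (t : V) (D : Submodule (ZMod 2) V), pv t = t ∧ t ∉ D ∧ (∀ d ∈ D, pv d = d) ∧
    (∀ v, pv v ∈ D ∨ pv v + t ∈ D) ∧ (∀ d ∈ D, ∀ d' ∈ D, q d d' = 0) ∧
    (∀ d ∈ D, q t d = 0 → d = 0) ∧ (∀ b, ∃ d ∈ D, q t d = pb b) ∧
    2 ≤ Module.finrank (ZMod 2) D

/-- a system of components -/
structure CompData (q : V →ₗ[ZMod 2] V →ₗ[ZMod 2] B) (ι : Type) [Fintype ι] [DecidableEq ι]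
    (pV : ι → V →ₗ[ZMod 2] V) (pB : ι → B →ₗ[ZMod 2] B) : Prop where
  sumV : ∀ v, ∑ i, pV i v = v
  sumB : ∀ b, ∑ i, pB i b = b
  mulV : ∀ i j v, pV i (pV j v) = if i = j then pV i v else 0
  mulB : ∀ i j b, pB i (pB j b) = if i = j then pB i b else 0
  comm : ∀ i v w, q (pV i v) w = pB i (q v w)
  typ : ∀ i, IsLoc (pB i) ∨ IsFan q (pV i) (pB i)

/-- there is a system of components -/
def HasComp (q : V →ₗ[ZMod 2] V →ₗ[ZMod 2] B) : Prop :=
  ∃ (n : ℕ) (pV : Fin n → V →ₗ[ZMod 2] V) (pB : Fin n → B →ₗ[ZMod 2] B),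
    CompData q (Fin n) pV pB

theorem CompData.reindex {q : V →ₗ[ZMod 2] V →ₗ[ZMod 2] B} {ι κ : Type} [Fintype ι]
    [DecidableEq ι] [Fintype κ] [DecidableEq κ] {pV : ι → V →ₗ[ZMod 2] V}
    {pB : ι → B →ₗ[ZMod 2] B} (h : CompData q ι pV pB) (f : κ ≃ ι) :
    CompData q κ (fun k => pV (f k)) (fun k => pB (f k)) where
  sumV v := by
    have := h.sumV v
    rw [← Equiv.sum_comp f (fun i => pV i v)] at this
    exact this
  sumB b := by
    have := h.sumB b
    rw [← Equiv.sum_comp f (fun i => pB i b)] at this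
    exact this
  mulV i j v := by
    rw [h.mulV]
    simp only [EmbeddingLike.apply_eq_iff_eq]
  mulB i j b := by
    rw [h.mulB]
    simp only [EmbeddingLike.apply_eq_iff_eq]
  comm i v w := h.comm _ v w
  typ i := h.typ _

theorem hasComp_of {q : V →ₗ[ZMod 2] V →ₗ[ZMod 2] B} {ι : Type} [Fintype ι]
    [DecidableEq ι] {pV : ι → V →ₗ[ZMod 2] V}
    {pB : ι → B →ₗ[ZMod 2] B} (h : CompData q ι pV pB) : HasComp q :=
  ⟨Fintype.card ι, _, _, h.reindex (Fintype.equivFin ι).symm⟩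

end

/-- the induction statement -/
def GoodC (n : ℕ) : Prop :=
  ∀ (V B : Type) [AddCommGroup V] [Module (ZMod 2) V] [AddCommGroup B] [Module (ZMod 2) B]
    [Finite V] (q : V →ₗ[ZMod 2] V →ₗ[ZMod 2] B), IsLinked q 0 → (∃ x, Full q x) →
    (∀ a, (∀ b, q a b = 0) → a = 0) → Nat.card V < n → HasComp q

section
variable {V B : Type} [AddCommGroup V] [Module (ZMod 2) V] [AddCommGroup B] [Module (ZMod 2) B]

/-- an endomorphism of a summand extended by `0` -/
noncomputable def extp {M : Type} [AddCommGroup M] [Module (ZMod 2) M]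
    (M₁ M₂ : Submodule (ZMod 2) M) (h : IsCompl M₁ M₂) (f : M₁ →ₗ[ZMod 2] M₁) :
    M →ₗ[ZMod 2] M := M₁.subtype ∘ₗ f ∘ₗ M₁.projectionOnto M₂ h

theorem extp_apply {M : Type} [AddCommGroup M] [Module (ZMod 2) M]
    (M₁ M₂ : Submodule (ZMod 2) M) (h : IsCompl M₁ M₂) (f : M₁ →ₗ[ZMod 2] M₁) (m : M) :
    extp M₁ M₂ h f m = (f (M₁.projectionOnto M₂ h m) : M) := rfl

theorem proj_extp {M : Type} [AddCommGroup M] [Module (ZMod 2) M]
    (M₁ M₂ : Submodule (ZMod 2) M) (h : IsCompl M₁ M₂) (f : M₁ →ₗ[ZMod 2] M₁) (m : M) :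
    M₁.projectionOnto M₂ h (extp M₁ M₂ h f m) = f (M₁.projectionOnto M₂ h m) := by
  rw [extp_apply]; exact Submodule.projectionOnto_apply_left h _

theorem proj_extp' {M : Type} [AddCommGroup M] [Module (ZMod 2) M]
    (M₁ M₂ : Submodule (ZMod 2) M) (h : IsCompl M₁ M₂) (f : M₁ →ₗ[ZMod 2] M₁) (m : M) :
    M₂.projectionOnto M₁ h.symm (extp M₁ M₂ h f m) = 0 := by
  rw [extp_apply]; exact Submodule.projectionOnto_apply_right h.symm _

theorem comp_of_decomp [Finite V] {n : ℕ} (hn : GoodC n) (hVn : Nat.card V ≤ n)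
    {q : V →ₗ[ZMod 2] V →ₗ[ZMod 2] B} (hq : IsLinked q 0) (hx : ∃ x, Full q x)
    (hnd : ∀ a, (∀ b, q a b = 0) → a = 0) (h : Decomp q) : HasComp q := by
  obtain ⟨V₁, V₂, B₁, B₂, hV, hB, h1, h2, h3, h4⟩ := h
  have htop : ∀ v, ∃ a ∈ V₁, ∃ b ∈ V₂, a + b = v := by
    intro v
    have : v ∈ V₁ ⊔ V₂ := by rw [hV.sup_eq_top]; trivial
    exact Submodule.mem_sup.1 this
  have htop' : ∀ v, ∃ a ∈ V₂, ∃ b ∈ V₁, a + b = v := by
    intro v
    obtain ⟨a, ha, b, hb, h⟩ := htop v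
    exact ⟨b, hb, a, ha, by rw [add_comm, h]⟩
  have hl1 := res_linked hq hB.disjoint h1 h2 htop (Submodule.zero_mem _)
    (Submodule.zero_mem _) (add_zero 0)
  have hl2 := res_linked hq hB.disjoint.symm h2 h1 htop' (Submodule.zero_mem _)
    (Submodule.zero_mem _) (add_zero 0)
  have hf1 := res_full hq hB.disjoint h1 h2 htop hx
  have hf2 := res_full hq hB.disjoint.symm h2 h1 htop' hx
  have hcard : ∀ W : Submodule (ZMod 2) V, W ≠ ⊤ → Nat.card W < n := by
    intro W hW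
    refine lt_of_lt_of_le ?_ hVn
    have hW' : (W : Set V) ≠ Set.univ := by
      intro h; apply hW
      exact SetLike.coe_injective (by rw [h]; rfl)
    have := Set.ncard_lt_card (s := (W : Set V)) hW'
    rwa [← Nat.card_coe_set_eq] at this
  have hc12 : ∀ v ∈ V₁, ∀ w ∈ V₂, q v w = 0 := fun v hv w hw =>
    cross_zero hq hB.disjoint h1 h2 hv hw
  have hnd1 : ∀ a : V₁, (∀ b, resQ q V₁ B₁ h1 a b = 0) → a = 0 := by
    intro a ha
    apply Subtype.ext
    apply hnd
    intro b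
    obtain ⟨b₁, hb₁, b₂, hb₂, rfl⟩ := htop b
    have e1 := congrArg Subtype.val (ha ⟨b₁, hb₁⟩)
    rw [resQ_coe] at e1
    rw [map_add, hc12 a a.2 b₂ hb₂, add_zero]
    exact e1
  have hnd2 : ∀ a : V₂, (∀ b, resQ q V₂ B₂ h2 a b = 0) → a = 0 := by
    intro a ha
    apply Subtype.ext
    apply hnd
    intro b
    obtain ⟨b₁, hb₁, b₂, hb₂, rfl⟩ := htop b
    have e1 := congrArg Subtype.val (ha ⟨b₂, hb₂⟩)
    rw [resQ_coe] at e1
    rw [map_add, hq.symm a b₁, hc12 b₁ hb₁ a a.2, zero_add]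
    exact e1
  obtain ⟨n1, pV1, pB1, c1⟩ := hn V₁ B₁ _ hl1 hf1 hnd1 (hcard V₁ h3)
  obtain ⟨n2, pV2, pB2, c2⟩ := hn V₂ B₂ _ hl2 hf2 hnd2 (hcard V₂ h4)
  let pV : Fin n1 ⊕ Fin n2 → V →ₗ[ZMod 2] V := Sum.elim (fun i => extp V₁ V₂ hV (pV1 i))
    (fun i => extp V₂ V₁ hV.symm (pV2 i))
  let pB : Fin n1 ⊕ Fin n2 → B →ₗ[ZMod 2] B := Sum.elim (fun i => extp B₁ B₂ hB (pB1 i))
    (fun i => extp B₂ B₁ hB.symm (pB2 i))
  have hsV : ∀ v : V, ((V₁.projectionOnto V₂ hV v : V₁) : V) +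
      (V₂.projectionOnto V₁ hV.symm v : V₂) = v := fun v =>
    Submodule.projection_add_projection_eq_self hV v
  have hsB : ∀ b : B, ((B₁.projectionOnto B₂ hB b : B₁) : B) +
      (B₂.projectionOnto B₁ hB.symm b : B₂) = b := fun b =>
    Submodule.projection_add_projection_eq_self hB b
  -- `q (v₁) w` is the projection of `q v w`
  have key1 : ∀ v w : V, (B₁.projectionOnto B₂ hB (q v w)) =
      resQ q V₁ B₁ h1 (V₁.projectionOnto V₂ hV v) (V₁.projectionOnto V₂ hV w) := by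
    intro v w
    have e1 : q v w = q (V₁.projectionOnto V₂ hV v : V) (V₁.projectionOnto V₂ hV w : V) +
        q (V₂.projectionOnto V₁ hV.symm v : V) (V₂.projectionOnto V₁ hV.symm w : V) := by
      conv_lhs => rw [← hsV v, ← hsV w]
      rw [map_add q, LinearMap.add_apply, map_add, map_add,
        hc12 _ (Subtype.mem _) _ (Subtype.mem _),
        hq.symm (V₂.projectionOnto V₁ hV.symm v : V) (V₁.projectionOnto V₂ hV w : V),
        hc12 _ (Subtype.mem _) _ (Subtype.mem _), add_zero, zero_add]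
    rw [e1, map_add, Submodule.projectionOnto_apply_of_mem_right hB (h2 _ (Subtype.mem _) _),
      add_zero]
    apply Subtype.ext
    rw [resQ_coe, Submodule.projectionOnto_apply_of_mem_left hB (h1 _ (Subtype.mem _) _)]
  have key2 : ∀ v w : V, (B₂.projectionOnto B₁ hB.symm (q v w)) =
      resQ q V₂ B₂ h2 (V₂.projectionOnto V₁ hV.symm v) (V₂.projectionOnto V₁ hV.symm w) := by
    intro v w
    have e1 : q v w = q (V₁.projectionOnto V₂ hV v : V) (V₁.projectionOnto V₂ hV w : V) +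
        q (V₂.projectionOnto V₁ hV.symm v : V) (V₂.projectionOnto V₁ hV.symm w : V) := by
      conv_lhs => rw [← hsV v, ← hsV w]
      rw [map_add q, LinearMap.add_apply, map_add, map_add,
        hc12 _ (Subtype.mem _) _ (Subtype.mem _),
        hq.symm (V₂.projectionOnto V₁ hV.symm v : V) (V₁.projectionOnto V₂ hV w : V),
        hc12 _ (Subtype.mem _) _ (Subtype.mem _), add_zero, zero_add]
    rw [e1, map_add, Submodule.projectionOnto_apply_of_mem_right hB.symm (h1 _ (Subtype.mem _) _),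
      zero_add]
    apply Subtype.ext
    rw [resQ_coe, Submodule.projectionOnto_apply_of_mem_left hB.symm (h2 _ (Subtype.mem _) _)]
  apply hasComp_of (ι := Fin n1 ⊕ Fin n2) (pV := pV) (pB := pB)
  refine ⟨?_, ?_, ?_, ?_, ?_, ?_⟩
  · intro v
    rw [Fintype.sum_sum_type]
    change ∑ i, extp V₁ V₂ hV (pV1 i) v + ∑ i, extp V₂ V₁ hV.symm (pV2 i) v = v
    simp only [extp_apply]
    rw [← Submodule.coe_sum, ← Submodule.coe_sum, c1.sumV, c2.sumV, hsV]
  · intro b
    rw [Fintype.sum_sum_type]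
    change ∑ i, extp B₁ B₂ hB (pB1 i) b + ∑ i, extp B₂ B₁ hB.symm (pB2 i) b = b
    simp only [extp_apply]
    rw [← Submodule.coe_sum, ← Submodule.coe_sum, c1.sumB, c2.sumB, hsB]
  · rintro (i | i) (j | j) v
    · change extp V₁ V₂ hV (pV1 i) (extp V₁ V₂ hV (pV1 j) v) = _
      rw [extp_apply, proj_extp, c1.mulV]
      by_cases h : i = j
      · subst h; simp only [if_true]; rfl
      · rw [if_neg h, if_neg (fun h' => h (Sum.inl.inj h'))]; rfl
    · change extp V₁ V₂ hV (pV1 i) (extp V₂ V₁ hV.symm (pV2 j) v) = _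
      rw [extp_apply, proj_extp', map_zero, if_neg (by simp)]; rfl
    · change extp V₂ V₁ hV.symm (pV2 i) (extp V₁ V₂ hV (pV1 j) v) = _
      rw [extp_apply, proj_extp', map_zero, if_neg (by simp)]; rfl
    · change extp V₂ V₁ hV.symm (pV2 i) (extp V₂ V₁ hV.symm (pV2 j) v) = _
      rw [extp_apply, proj_extp, c2.mulV]
      by_cases h : i = j
      · subst h; simp only [if_true]; rfl
      · rw [if_neg h, if_neg (fun h' => h (Sum.inr.inj h'))]; rfl
  · rintro (i | i) (j | j) b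
    · change extp B₁ B₂ hB (pB1 i) (extp B₁ B₂ hB (pB1 j) b) = _
      rw [extp_apply, proj_extp, c1.mulB]
      by_cases h : i = j
      · subst h; simp only [if_true]; rfl
      · rw [if_neg h, if_neg (fun h' => h (Sum.inl.inj h'))]; rfl
    · change extp B₁ B₂ hB (pB1 i) (extp B₂ B₁ hB.symm (pB2 j) b) = _
      rw [extp_apply, proj_extp', map_zero, if_neg (by simp)]; rfl
    · change extp B₂ B₁ hB.symm (pB2 i) (extp B₁ B₂ hB (pB1 j) b) = _
      rw [extp_apply, proj_extp', map_zero, if_neg (by simp)]; rfl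
    · change extp B₂ B₁ hB.symm (pB2 i) (extp B₂ B₁ hB.symm (pB2 j) b) = _
      rw [extp_apply, proj_extp, c2.mulB]
      by_cases h : i = j
      · subst h; simp only [if_true]; rfl
      · rw [if_neg h, if_neg (fun h' => h (Sum.inr.inj h'))]; rfl
  · rintro (i | i) v w
    · change q (extp V₁ V₂ hV (pV1 i) v) w = extp B₁ B₂ hB (pB1 i) (q v w)
      rw [extp_apply, extp_apply, key1, ← c1.comm, resQ_coe]
      conv_lhs => rw [← hsV w]
      rw [map_add, hc12 _ (Subtype.mem _) _ (Subtype.mem _), add_zero]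
    · change q (extp V₂ V₁ hV.symm (pV2 i) v) w = extp B₂ B₁ hB.symm (pB2 i) (q v w)
      rw [extp_apply, extp_apply, key2, ← c2.comm, resQ_coe]
      conv_lhs => rw [← hsV w]
      rw [map_add, hq.symm _ (V₁.projectionOnto V₂ hV w : V),
        hc12 _ (Subtype.mem _) _ (Subtype.mem _), zero_add]
  · have loc : ∀ (M₁ M₂ : Submodule (ZMod 2) B) (h : IsCompl M₁ M₂) (f : M₁ →ₗ[ZMod 2] M₁),
        IsLoc f → IsLoc (extp M₁ M₂ h f) := by
      rintro M₁ M₂ h f ⟨c, h0, hc, hb⟩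
      refine ⟨c, fun h' => h0 (Subtype.ext h'), ?_, ?_⟩
      · rw [extp_apply, Submodule.projectionOnto_apply_left, hc]
      · intro b
        rw [extp_apply]
        rcases hb (M₁.projectionOnto M₂ h b) with h' | h'
        · left; rw [h']; rfl
        · right; rw [h']
    have fan : ∀ (V₁ V₂ : Submodule (ZMod 2) V) (hV : IsCompl V₁ V₂)
        (B₁ B₂ : Submodule (ZMod 2) B) (hB : IsCompl B₁ B₂) (h1 : ∀ v ∈ V₁, ∀ w, q v w ∈ B₁)
        (f : V₁ →ₗ[ZMod 2] V₁) (g : B₁ →ₗ[ZMod 2] B₁),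
        IsFan (resQ q V₁ B₁ h1) f g → IsFan q (extp V₁ V₂ hV f) (extp B₁ B₂ hB g) := by
      rintro V₁ V₂ hV B₁ B₂ hB h1 f g ⟨t, D, a1, a2, a3, a4, a5, a6, a7, a8⟩
      refine ⟨t, D.map V₁.subtype, ?_, ?_, ?_, ?_, ?_, ?_, ?_, ?_⟩
      · rw [extp_apply, Submodule.projectionOnto_apply_left, a1]
      · rintro ⟨d, hd, hd'⟩
        apply a2
        rw [← Subtype.ext hd']
        exact hd
      · rintro _ ⟨d, hd, rfl⟩
        rw [extp_apply, Submodule.subtype_apply, Submodule.projectionOnto_apply_left, a3 d hd]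
      · intro v
        rw [extp_apply]
        rcases a4 (V₁.projectionOnto V₂ hV v) with h' | h'
        · left; exact ⟨_, h', rfl⟩
        · right; exact ⟨_, h', rfl⟩
      · rintro _ ⟨d, hd, rfl⟩ _ ⟨d', hd', rfl⟩
        exact congrArg Subtype.val (a5 d hd d' hd')
      · rintro _ ⟨d, hd, rfl⟩ h
        have := a6 d hd (Subtype.ext h)
        rw [this]; rfl
      · intro b
        obtain ⟨d, hd, h⟩ := a7 (B₁.projectionOnto B₂ hB b)
        exact ⟨d, ⟨d, hd, rfl⟩, congrArg Subtype.val h⟩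
      · rw [Submodule.finrank_map_subtype_eq]
        exact a8
    rintro (i | i)
    · rcases c1.typ i with h | h
      · left; exact loc _ _ _ _ h
      · right; exact fan _ _ _ _ _ _ _ _ _ h
    · rcases c2.typ i with h | h
      · left; exact loc _ _ _ _ h
      · right; exact fan _ _ _ _ _ _ _ _ _ h

/-- one component -/
theorem comp_one {q : V →ₗ[ZMod 2] V →ₗ[ZMod 2] B}
    (h : IsLoc (LinearMap.id : B →ₗ[ZMod 2] B) ∨
      IsFan q (LinearMap.id : V →ₗ[ZMod 2] V) (LinearMap.id : B →ₗ[ZMod 2] B)) : HasComp q := by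
  apply hasComp_of (ι := Unit) (pV := fun _ => LinearMap.id) (pB := fun _ => LinearMap.id)
  refine ⟨?_, ?_, ?_, ?_, ?_, ?_⟩
  · intro v; simp
  · intro b; simp
  · intro i j v; simp
  · intro i j b; simp
  · intro i v w; simp
  · intro i; exact h

theorem goodC_succ {n : ℕ} (hn : GoodC n) : GoodC (n + 1) := by
  intro V B _ _ _ _ _ q hq hx hnd hlt
  have hle : Nat.card V ≤ n := by omega
  by_cases hdec : Decomp q
  · exact comp_of_decomp hn hle hq hx hnd hdec
  obtain ⟨x, hxf⟩ := id hx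
  by_cases h1 : ∀ v : V, v = 0
  · apply hasComp_of (ι := Empty) (pV := fun i => i.elim) (pB := fun i => i.elim)
    refine ⟨?_, ?_, ?_, ?_, ?_, ?_⟩
    · intro v; rw [h1 v]; simp
    · intro b
      obtain ⟨v, rfl⟩ := hxf b
      rw [h1 v]; simp
    · intro i; exact i.elim
    · intro i; exact i.elim
    · intro i; exact i.elim
    · intro i; exact i.elim
  push Not at h1
  obtain ⟨v₀, hv₀⟩ := h1
  obtain ⟨w₀, hw₀⟩ : ∃ w, q v₀ w ≠ 0 := by
    by_contra hc
    push Not at hc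
    exact hv₀ (hnd v₀ hc)
  have hloc : (∀ β β' : B, β ≠ 0 → β' ≠ 0 → β = β') → HasComp q := by
    intro hB
    apply comp_one
    left
    refine ⟨q v₀ w₀, hw₀, rfl, ?_⟩
    intro b
    by_cases h : b = 0
    · left; exact h
    · right; exact hB _ _ h hw₀
  by_cases hext : ExtData q 0
  · obtain ⟨D, x, hxD, hD, hDD, he, hinj, hsurj⟩ := hext
    by_cases hf : 2 ≤ Module.finrank (ZMod 2) D
    · apply comp_one
      right
      exact ⟨x, D, rfl, hxD, fun _ _ => rfl, hD, hDD, hinj, hsurj, hf⟩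
    · apply hloc
      intro β β' h h'
      obtain ⟨d, hd, rfl⟩ := hsurj β
      obtain ⟨d', hd', rfl⟩ := hsurj β'
      have hd0 : d ≠ 0 := by rintro rfl; rw [map_zero] at h; exact h rfl
      have hd0' : d' ≠ 0 := by rintro rfl; rw [map_zero] at h'; exact h' rfl
      by_contra hne
      have hdd : d ≠ d' := by rintro rfl; exact hne rfl
      apply hf
      have h3 : (⟨d', hd'⟩ : D) ∉ Submodule.span (ZMod 2) {(⟨d, hd⟩ : D)} := by
        intro hm
        rcases mem_span_pair hm with h5 | h5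
        · exact hd0' (congrArg Subtype.val h5)
        · exact hdd (congrArg Subtype.val h5).symm
      have h4 : Submodule.span (ZMod 2) {(⟨d, hd⟩ : D)} < ⊤ := by
        apply lt_of_le_of_ne le_top
        intro h5
        apply h3
        rw [h5]; trivial
      have h5 := Submodule.finrank_lt_finrank_of_lt h4
      have h6 : (⟨d, hd⟩ : D) ≠ 0 := fun h7 => hd0 (congrArg Subtype.val h7)
      rw [finrank_top, finrank_span_singleton h6] at h5
      omega
  · have hall : ∀ μ ν : B →ₗ[ZMod 2] ZMod 2, Atomic q μ → Atomic q ν → Rel q μ ν := by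
      intro μ ν hμ hν
      by_contra hc
      exact hdec (decomp_of_not_rel hq hxf hnd hν hμ hc)
    have hBf : ∀ μ ν : B →ₗ[ZMod 2] ZMod 2, μ ≠ 0 → ν ≠ 0 → μ = ν := by
      intro μ ν hμ hν
      by_contra hc
      exact hext (ext_of_rel hq hxf hnd hall hμ hν hc)
    exact hloc (fun β β' h h' => B_two hBf h h')

theorem goodC_all (n : ℕ) : GoodC n := by
  induction n with
  | zero =>
    intro V B _ _ _ _ _ q hq hx hnd hlt
    exact absurd hlt (Nat.not_lt_zero _)
  | succ n ih => exact goodC_succ ih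

/-- **B1.** A nondegenerate linked alternating structure with a full element is a product of
local structures and fans. -/
theorem hasComp [Finite V] {q : V →ₗ[ZMod 2] V →ₗ[ZMod 2] B} (hq : IsLinked q 0)
    (hx : ∃ x, Full q x) (hnd : ∀ a, (∀ b, q a b = 0) → a = 0) : HasComp q :=
  goodC_all (Nat.card V + 1) V B q hq hx hnd (Nat.lt_succ_self _)

end

end Pool.Agent.ETB
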