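import Pool.Agent.DSC.Defs

/-!
Bilinear maps all of whose partial maps have bounded rank (note 1580 (C)), and the end of the
tower argument: in an infinite tower of quadratic extensions with bounded ranks some field has a
total element.
-/

set_option autoImplicit false

namespace Pool.Agent.ETB

open CommonSlot

/-- `rk M + rk M' ≥ rk (M + M') + 2 rk (M : ker (M + M') → B / im (M + M'))` -/
theorem rank_add_rank {Y B : Type} [AddCommGroup Y] [Module (ZMod 2) Y] [AddCommGroup B]
    [Module (ZMod 2) B] [Finite Y] [Finite B] (S M M' : Y →ₗ[ZMod 2] B) (h : M + M' = S) :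
    Module.finrank (ZMod 2) (LinearMap.range S) + 2 * Module.finrank (ZMod 2)
      (LinearMap.range ((LinearMap.range S).mkQ ∘ₗ M ∘ₗ (LinearMap.ker S).subtype)) ≤
    Module.finrank (ZMod 2) (LinearMap.range M) + Module.finrank (ZMod 2) (LinearMap.range M') := by
  set D := (LinearMap.range S).mkQ ∘ₗ M ∘ₗ (LinearMap.ker S).subtype with hD
  -- a complement of `ker D`
  obtain ⟨U, hU⟩ := Submodule.exists_isCompl (LinearMap.ker D)
  have hUd : Module.finrank (ZMod 2) U = Module.finrank (ZMod 2) (LinearMap.range D) := by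
    have h1 := Submodule.finrank_add_eq_of_isCompl hU
    have h2 := LinearMap.finrank_range_add_finrank_ker D
    omega
  -- the image of `U` under `M`
  let MU := U.map (M ∘ₗ (LinearMap.ker S).subtype)
  have hinj : ∀ u ∈ U, M u ∈ LinearMap.range S → u = 0 := by
    intro u hu hm
    have : D u = 0 := by
      rw [hD]
      simpa using hm
    have h2 : u ∈ LinearMap.ker D ⊓ U := ⟨this, hu⟩
    rw [hU.inf_eq_bot] at h2
    exact h2
  have hdis : Disjoint MU (LinearMap.range S) := by
    rw [Submodule.disjoint_def]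
    rintro _ ⟨u, hu, rfl⟩ hm
    rw [hinj u hu hm, map_zero]
  have hMUd : Module.finrank (ZMod 2) MU = Module.finrank (ZMod 2) U := by
    apply LinearEquiv.finrank_eq
    symm
    refine LinearEquiv.ofBijective ((M ∘ₗ (LinearMap.ker S).subtype).submoduleMap U) ⟨?_, ?_⟩
    · rw [← LinearMap.ker_eq_bot, LinearMap.ker_eq_bot']
      rintro ⟨u, hu⟩ h0
      have h1 := congrArg Subtype.val h0
      apply Subtype.ext
      apply hinj u hu
      change M u = 0 at h1
      rw [h1]
      exact Submodule.zero_mem _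
    · exact LinearMap.submoduleMap_surjective _ _
  have hMU : MU ≤ LinearMap.range M := by
    rintro _ ⟨u, hu, rfl⟩
    exact ⟨u, rfl⟩
  have hMM : ∀ u : LinearMap.ker S, M u = M' u := by
    intro u
    have h1 : S u = 0 := u.2
    have h2 := LinearMap.congr_fun h (u : Y)
    rw [h1, LinearMap.add_apply] at h2
    exact eq_of_add_eq_zero' h2
  have hMU' : MU ≤ LinearMap.range M' := by
    rintro _ ⟨u, hu, rfl⟩
    exact ⟨u, (hMM u).symm⟩
  -- quotient by `MU`
  have key : ∀ L : Submodule (ZMod 2) B, MU ≤ L → Module.finrank (ZMod 2) L =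
      Module.finrank (ZMod 2) MU + Module.finrank (ZMod 2) (L.map MU.mkQ) := by
    intro L hL
    have h1 := LinearMap.finrank_range_add_finrank_ker (MU.mkQ.domRestrict L)
    have h2 : LinearMap.range (MU.mkQ.domRestrict L) = L.map MU.mkQ := by
      ext z; constructor
      · rintro ⟨⟨l, hl⟩, rfl⟩; exact ⟨l, hl, rfl⟩
      · rintro ⟨l, hl, rfl⟩; exact ⟨⟨l, hl⟩, rfl⟩
    have h3 : Module.finrank (ZMod 2) (LinearMap.ker (MU.mkQ.domRestrict L)) =
        Module.finrank (ZMod 2) MU := by
      have h4 : (LinearMap.ker (MU.mkQ.domRestrict L)).map L.subtype = MU := by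
        ext z; constructor
        · rintro ⟨⟨l, hl⟩, hk, rfl⟩
          have : MU.mkQ l = 0 := hk
          rwa [Submodule.mkQ_apply, Submodule.Quotient.mk_eq_zero] at this
        · intro hz
          refine ⟨⟨z, hL hz⟩, ?_, rfl⟩
          change MU.mkQ z = 0
          rwa [Submodule.mkQ_apply, Submodule.Quotient.mk_eq_zero]
      rw [← Submodule.finrank_map_subtype_eq L (LinearMap.ker (MU.mkQ.domRestrict L)), h4]
    rw [h2, h3] at h1
    omega
  have hS : Module.finrank (ZMod 2) ((LinearMap.range S).map MU.mkQ) =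
      Module.finrank (ZMod 2) (LinearMap.range S) := by
    apply LinearEquiv.finrank_eq
    symm
    refine LinearEquiv.ofBijective (MU.mkQ.submoduleMap (LinearMap.range S)) ⟨?_, ?_⟩
    · rw [← LinearMap.ker_eq_bot, LinearMap.ker_eq_bot']
      rintro ⟨u, hu⟩ h0
      have h1 := congrArg Subtype.val h0
      change MU.mkQ u = 0 at h1
      rw [Submodule.mkQ_apply, Submodule.Quotient.mk_eq_zero] at h1
      exact Subtype.ext (Submodule.disjoint_def.1 hdis u h1 hu)
    · exact LinearMap.submoduleMap_surjective _ _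
  have hle : (LinearMap.range S).map MU.mkQ ≤
      (LinearMap.range M).map MU.mkQ ⊔ (LinearMap.range M').map MU.mkQ := by
    rintro _ ⟨_, ⟨y, rfl⟩, rfl⟩
    rw [← h, LinearMap.add_apply, map_add]
    exact Submodule.add_mem_sup ⟨_, ⟨y, rfl⟩, rfl⟩ ⟨_, ⟨y, rfl⟩, rfl⟩
  have h5 := Submodule.finrank_mono hle
  have h6 := Submodule.finrank_add_le_finrank_add_finrank
    ((LinearMap.range M).map MU.mkQ) ((LinearMap.range M').map MU.mkQ)
  have h7 := key _ hMU
  have h8 := key _ hMU'
  rw [hS] at h5
  omega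

/-- partial maps of rank `≤ ρ`: a subspace `Y'` of codimension `≤ 2ρ` and a subspace `B'` of
dimension `≤ 2ρ` with `q(X, Y') ⊆ B'` -/
theorem exists_small (ρ : ℕ) : ∀ (X Y B : Type) [AddCommGroup X] [Module (ZMod 2) X]
    [AddCommGroup Y] [Module (ZMod 2) Y] [AddCommGroup B] [Module (ZMod 2) B] [Finite Y]
    [Finite B] (q : X →ₗ[ZMod 2] Y →ₗ[ZMod 2] B),
    (∀ x, Module.finrank (ZMod 2) (LinearMap.range (q x)) ≤ ρ) →
    ∃ (Y' : Submodule (ZMod 2) Y) (B' : Submodule (ZMod 2) B),
      Module.finrank (ZMod 2) Y ≤ Module.finrank (ZMod 2) Y' + 2 * ρ ∧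
      Module.finrank (ZMod 2) B' ≤ 2 * ρ ∧ ∀ x, ∀ y ∈ Y', q x y ∈ B' := by
  induction ρ using Nat.strong_induction_on with
  | _ ρ ih =>
    intro X Y B _ _ _ _ _ _ _ _ q hq
    by_cases h0 : ∀ x, Module.finrank (ZMod 2) (LinearMap.range (q x)) = 0
    · refine ⟨⊤, ⊥, ?_, ?_, ?_⟩
      · rw [finrank_top]; omega
      · rw [finrank_bot]; omega
      · intro x y _
        have h1 := Submodule.finrank_eq_zero.1 (h0 x)
        have : q x y ∈ LinearMap.range (q x) := ⟨y, rfl⟩
        rw [h1] at this
        exact this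
    · -- an element of maximal rank
      obtain ⟨x₀, hx₀⟩ : ∃ x₀, ∀ x, Module.finrank (ZMod 2) (LinearMap.range (q x)) ≤
          Module.finrank (ZMod 2) (LinearMap.range (q x₀)) := by
        have hb : BddAbove (Set.range fun x => Module.finrank (ZMod 2) (LinearMap.range (q x))) :=
          ⟨ρ, by rintro _ ⟨x, rfl⟩; exact hq x⟩
        have hne : (Set.range fun x =>
          Module.finrank (ZMod 2) (LinearMap.range (q x))).Nonempty := ⟨_, ⟨0, rfl⟩⟩
        obtain ⟨x₀, hx₀⟩ := Nat.sSup_mem hne hb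
        exact ⟨x₀, fun x => by
          have := le_csSup hb ⟨x, rfl⟩
          rw [← hx₀] at this
          exact this⟩
      set r := Module.finrank (ZMod 2) (LinearMap.range (q x₀)) with hr
      have hr0 : 0 < r := by
        push Not at h0
        obtain ⟨x, hx⟩ := h0
        have := hx₀ x
        omega
      have hrρ : r ≤ ρ := hq x₀
      let K := LinearMap.ker (q x₀)
      let I := LinearMap.range (q x₀)
      let q₁ : X →ₗ[ZMod 2] K →ₗ[ZMod 2] (B ⧸ I) :=
        { toFun := fun x => I.mkQ ∘ₗ q x ∘ₗ K.subtype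
          map_add' := by intro x y; ext z; simp
          map_smul' := by intro c x; ext z; simp }
      have h1 : ∀ x, Module.finrank (ZMod 2) (LinearMap.range (q₁ x)) ≤ r / 2 := by
        intro x
        have := rank_add_rank (q x₀) (q x) (q (x + x₀)) (by
          rw [map_add, add_add_self])
        have h2 := hx₀ x
        have h3 := hx₀ (x + x₀)
        have h4 : Module.finrank (ZMod 2) (LinearMap.range (q₁ x)) = Module.finrank (ZMod 2)
          (LinearMap.range ((LinearMap.range (q x₀)).mkQ ∘ₗ q x ∘ₗ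
            (LinearMap.ker (q x₀)).subtype)) := rfl
        omega
      have : Finite (B ⧸ I) := Finite.of_surjective _ (Submodule.mkQ_surjective I)
      obtain ⟨Y₁, B₁, a1, a2, a3⟩ := ih (r / 2) (by omega) X K (B ⧸ I) q₁ h1
      refine ⟨Y₁.map K.subtype, B₁.comap I.mkQ, ?_, ?_, ?_⟩
      · rw [Submodule.finrank_map_subtype_eq]
        have h5 := LinearMap.finrank_range_add_finrank_ker (q x₀)
        have h6 : Module.finrank (ZMod 2) K = Module.finrank (ZMod 2) (LinearMap.ker (q x₀)) := rfl
        omega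
      · have h7 := LinearMap.finrank_range_add_finrank_ker
          (I.mkQ.domRestrict (B₁.comap I.mkQ))
        have h8 : Module.finrank (ZMod 2) (LinearMap.range (I.mkQ.domRestrict (B₁.comap I.mkQ))) ≤
            Module.finrank (ZMod 2) B₁ := by
          apply Submodule.finrank_mono
          rintro _ ⟨⟨b, hb⟩, rfl⟩
          exact hb
        have h9 : Module.finrank (ZMod 2) (LinearMap.ker (I.mkQ.domRestrict (B₁.comap I.mkQ))) ≤
            Module.finrank (ZMod 2) I := by
          rw [← Submodule.finrank_map_subtype_eq (B₁.comap I.mkQ)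
            (LinearMap.ker (I.mkQ.domRestrict (B₁.comap I.mkQ)))]
          apply Submodule.finrank_mono
          rintro _ ⟨⟨b, hb⟩, hk, rfl⟩
          have : I.mkQ b = 0 := hk
          rwa [Submodule.mkQ_apply, Submodule.Quotient.mk_eq_zero] at this
        have h10 : Module.finrank (ZMod 2) I = r := rfl
        omega
      · rintro x _ ⟨y, hy, rfl⟩
        exact a3 x y hy

theorem sup_bound {V B : Type} [AddCommGroup V] [Module (ZMod 2) V] [AddCommGroup B]
    [Module (ZMod 2) B] [Finite B] (q : V →ₗ[ZMod 2] V →ₗ[ZMod 2] B) (ρ : ℕ)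
    (hq : ∀ x, DSC.rk q x ≤ ρ) {ι : Type} (f : ι → V) (s : Finset ι) :
    Module.finrank (ZMod 2) ((s.sup fun i => LinearMap.range (q (f i)) : Submodule (ZMod 2) B)) ≤
      s.card * ρ := by
  classical
  induction s using Finset.induction_on with
  | empty =>
    rw [Finset.sup_empty, finrank_bot]
    exact Nat.zero_le _
  | insert i s hi ih =>
    rw [Finset.sup_insert, Finset.card_insert_of_notMem hi]
    have h1 := Submodule.finrank_add_le_finrank_add_finrank (LinearMap.range (q (f i)))
      (s.sup fun i => LinearMap.range (q (f i)))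
    have h2 := hq (f i)
    unfold DSC.rk at h2
    have h3 : (s.card + 1) * ρ = s.card * ρ + ρ := by ring
    omega

/-- symbols span and all ranks `≤ ρ`: `dim B ≤ 2ρ² + 2ρ` -/
theorem dim_bound {V B : Type} [AddCommGroup V] [Module (ZMod 2) V] [AddCommGroup B]
    [Module (ZMod 2) B] [Finite V] [Finite B] (q : V →ₗ[ZMod 2] V →ₗ[ZMod 2] B)
    (hs : ∀ v w, q v w = q w v)
    (hsp : ⊤ ≤ Submodule.span (ZMod 2) {b | ∃ v w, q v w = b}) (ρ : ℕ)
    (hq : ∀ x, DSC.rk q x ≤ ρ) : Module.finrank (ZMod 2) B ≤ 2 * ρ * ρ + 2 * ρ := by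
  obtain ⟨Y, B', h1, h2, h3⟩ := exists_small ρ V V B q hq
  obtain ⟨U, hU⟩ := Submodule.exists_isCompl Y
  have hUd : Module.finrank (ZMod 2) U ≤ 2 * ρ := by
    have := Submodule.finrank_add_eq_of_isCompl hU
    omega
  let b := Module.finBasis (ZMod 2) U
  let L : Submodule (ZMod 2) B :=
    (Finset.univ.sup fun i => LinearMap.range (q ((b i : U) : V)) : Submodule (ZMod 2) B)
  have hL : Module.finrank (ZMod 2) L ≤ 2 * ρ * ρ := by
    have := sup_bound q ρ hq (fun i => ((b i : U) : V)) Finset.univ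
    rw [Finset.card_univ, Fintype.card_fin] at this
    refine this.trans (Nat.mul_le_mul_right ρ hUd)
  have hLu : ∀ u ∈ U, ∀ v, q u v ∈ L := by
    intro u hu v
    have h4 : (⟨u, hu⟩ : U) = ∑ i, b.repr ⟨u, hu⟩ i • b i := (b.sum_repr _).symm
    have h5 : u = ∑ i, b.repr ⟨u, hu⟩ i • ((b i : U) : V) := by
      have := congrArg Subtype.val h4
      rw [Submodule.coe_sum] at this
      exact this
    rw [h5, map_sum, LinearMap.sum_apply]
    apply Submodule.sum_mem
    intro i _
    rw [map_smul, LinearMap.smul_apply]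
    apply Submodule.smul_mem
    have h6 : LinearMap.range (q ((b i : U) : V)) ≤ L :=
      Finset.le_sup (f := fun i => LinearMap.range (q ((b i : U) : V))) (Finset.mem_univ i)
    exact h6 ⟨v, rfl⟩
  have htop : (⊤ : Submodule (ZMod 2) B) ≤ B' ⊔ L := by
    refine hsp.trans (Submodule.span_le.2 ?_)
    rintro _ ⟨v, w, rfl⟩
    have h7 : w ∈ Y ⊔ U := by rw [hU.sup_eq_top]; trivial
    obtain ⟨y, hy, u, hu, rfl⟩ := Submodule.mem_sup.1 h7
    rw [map_add]
    refine Submodule.add_mem_sup (h3 v y hy) ?_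
    rw [hs]
    exact hLu u hu v
  have h8 := Submodule.finrank_mono htop
  rw [finrank_top] at h8
  have h9 := Submodule.finrank_add_le_finrank_add_finrank B' L
  omega

/-- `dim B_K = 2 dim B_F - r(x)` -/
theorem qext_dim {V B V' B' : Type} [AddCommGroup V] [Module (ZMod 2) V] [AddCommGroup B]
    [Module (ZMod 2) B] [AddCommGroup V'] [Module (ZMod 2) V'] [AddCommGroup B']
    [Module (ZMod 2) B'] [Finite B] [Finite B'] (E : DSC.QExt V B V' B') :
    Module.finrank (ZMod 2) B' + DSC.rk E.q E.x = 2 * Module.finrank (ZMod 2) B := by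
  have h1 := LinearMap.finrank_range_add_finrank_ker E.cor
  have h2 := LinearMap.finrank_range_add_finrank_ker E.resB
  have h3 : LinearMap.ker E.cor = LinearMap.range E.resB := by
    ext b; constructor
    · intro h; exact E.kercor b h
    · rintro ⟨c, rfl⟩; exact E.corres c
  have h4 : LinearMap.ker E.resB = LinearMap.range (E.q E.x) := by
    ext b
    rw [LinearMap.mem_ker, E.kerresB]
    rfl
  have h5 : LinearMap.range E.cor = ⊤ := LinearMap.range_eq_top.2 E.cor_surj
  rw [h3, h5, finrank_top] at h1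
  rw [h4] at h2
  unfold DSC.rk
  omega

/-- an element of rank `≥ dim B` is total -/
theorem full_of_rk {V B : Type} [AddCommGroup V] [Module (ZMod 2) V] [AddCommGroup B]
    [Module (ZMod 2) B] [Finite B] (q : V →ₗ[ZMod 2] V →ₗ[ZMod 2] B) (x : V)
    (h : Module.finrank (ZMod 2) B ≤ DSC.rk q x) : Full q x := by
  unfold DSC.rk at h
  have h1 : LinearMap.range (q x) = ⊤ := by
    apply Submodule.eq_top_of_finrank_eq
    exact le_antisymm (Submodule.finrank_le _) h
  exact LinearMap.range_eq_top.1 h1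

/-- **End of the tower argument.** In an infinite tower of quadratic extensions with bounded
ranks there is a level with a total element. -/
theorem tower_end (V B : ℕ → Type) [∀ j, AddCommGroup (V j)] [∀ j, Module (ZMod 2) (V j)]
    [∀ j, AddCommGroup (B j)] [∀ j, Module (ZMod 2) (B j)] [∀ j, Finite (V j)]
    [∀ j, Finite (B j)] (q : ∀ j, V j →ₗ[ZMod 2] V j →ₗ[ZMod 2] B j)
    (hsp : ∀ j, ⊤ ≤ Submodule.span (ZMod 2) {b | ∃ v w, q j v w = b})
    (hs : ∀ j v w, q j v w = q j w v)
    (hE : ∀ j, ∃ E : DSC.QExt (V j) (B j) (V (j + 1)) (B (j + 1)), E.q = q j)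
    (ρ : ℕ) (hρ : ∀ j x, DSC.rk (q j) x ≤ ρ) : ∃ j x, Full (q j) x := by
  by_contra hc
  push Not at hc
  have h1 : ∀ j, Module.finrank (ZMod 2) (B j) + 1 ≤ Module.finrank (ZMod 2) (B (j + 1)) := by
    intro j
    obtain ⟨E, hE⟩ := hE j
    have h2 := qext_dim E
    rw [hE] at h2
    have h3 : ¬ Module.finrank (ZMod 2) (B j) ≤ DSC.rk (q j) E.x := fun h =>
      hc j _ (full_of_rk (q j) E.x h)
    omega
  have h2 : ∀ j, j ≤ Module.finrank (ZMod 2) (B j) := by
    intro j
    induction j with
    | zero => exact Nat.zero_le _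
    | succ j ih =>
      have := h1 j
      omega
  have h3 := dim_bound (q (2 * ρ * ρ + 2 * ρ + 1)) (hs _) (hsp _) ρ (hρ _)
  have h4 := h2 (2 * ρ * ρ + 2 * ρ + 1)
  omega

end Pool.Agent.ETB
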