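import Pool.Agent.ETT.ADB
import Pool.Agent.ETT.AIX
import Pool.Agent.ETT.BRK
import Pool.Agent.ETT.CYC
import Pool.Agent.ETT.DWN
import Pool.Agent.ETT.EXP
import Pool.Agent.ETT.FSV
import Pool.Agent.ETT.FTT
import Pool.Agent.ETT.GDU
import Pool.Agent.ETT.GFX
import Pool.Agent.ETT.IND
import Pool.Agent.ETT.ISF
import Pool.Agent.ETT.KU1
import Pool.Agent.ETT.KU2
import Pool.Agent.ETT.KU3
import Pool.Agent.ETT.LFT
import Pool.Agent.ETT.LVA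
import Pool.Agent.ETT.QDX
import Pool.Agent.ETT.QSY
import Pool.Agent.ETT.STD
import Pool.Agent.ETT.SYS
import Pool.Agent.ETT.TOT
import Pool.Agent.ETT.UP2
import Pool.Agent.ETT.VFI
import Pool.Agent.ETT.VFU
import Pool.Agent.EWG.All
import Pool.Agent.DSC.All

set_option autoImplicit false

namespace Pool.Agent.ETB

open Pool.Agent.ETT

theorem ftt : ETT.Stmt_FTT := by
  have hFSV : ETT.Stmt_FSV := ETT.fsv_proof 
  have hSTD : ETT.Stmt_STD := ETT.std_proof hFSV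
  have hADB : ETT.Stmt_ADB := ETT.adb_proof 
  have hGFX : ETT.Stmt_GFX := ETT.gfx_proof hADB
  have hKU2 : ETT.Stmt_KU2 := ETT.ku2_proof hADB hGFX
  have hKU3 : ETT.Stmt_KU3 := ETT.ku3_proof hADB hGFX
  have hUP2 : ETT.Stmt_UP2 := ETT.up2_proof 
  have hIND : ETT.Stmt_IND := ETT.ind_proof hUP2
  have hVFI : ETT.Stmt_VFI := ETT.vfi_proof 
  have hVFU : ETT.Stmt_VFU := ETT.vfu_proof hADB hIND hGFX hKU2 hKU3 hVFI
  have hCYC : ETT.Stmt_CYC := ETT.cyc_proof hGFX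
  have hLFT : ETT.Stmt_LFT := ETT.lft_proof 
  have hAIX : ETT.Stmt_AIX := ETT.aix_proof 
  have hKU1 : ETT.Stmt_KU1 := ETT.ku1_proof hADB hAIX hGFX
  have hLVA : ETT.Stmt_LVA := ETT.lva_proof hADB hAIX hGFX hKU1
  have hSYS : ETT.Stmt_SYS := ETT.sys_proof hADB hKU2 hKU3 hVFU hCYC hLFT hLVA
  have hQDX : ETT.Stmt_QDX := ETT.qdx_proof hKU3
  have hISF : ETT.Stmt_ISF := ETT.isf_proof EWG.q_map
  have hGDU : ETT.Stmt_GDU := ETT.gdu_proof hADB hIND hGFX hKU2 hVFU hQDX hISF hFSV EWG.q_i3k EWG.q_fin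
  have hQSY : ETT.Stmt_QSY := ETT.qsy_proof hADB hGFX hKU1 hKU2 hKU3 hQDX hGDU EWG.q_qbl EWG.q_ecn EWG.q_qex
  have hEXP : ETT.Stmt_EXP := ETT.exp_proof 
  have hBRK : ETT.Stmt_BRK := ETT.brk_proof 
  have hTOT : ETT.Stmt_TOT := ETT.tot_proof hEXP hBRK
  have hDWN : ETT.Stmt_DWN := ETT.dwn_proof hKU2 hQDX hGDU EWG.q_qex DSC.dsc
  exact ETT.ftt_proof hSTD hSYS hQSY hTOT hADB hIND hDWN hGFX hISF

end Pool.Agent.ETB
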