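import Pool.Agent.ETT.StmtsZ
import Pool.Agent.Lib_MP_d26ff6_al.Main

/-!
Final assembly of the field theorem: from the modules to the statement about quaternionic
structures of fields.
-/

set_option autoImplicit false

namespace Pool.Agent.ETB

open Pool.Agent

/-- the value at `x` of the norm form `⟨1, -a, -b, ab⟩` of the quaternion algebra `(a, b)` -/
def nf {F : Type*} [Field F] (a b : F) (x : Fin 4 → F) : F :=
  x 0 ^ 2 - a * x 1 ^ 2 - b * x 2 ^ 2 + a * b * x 3 ^ 2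

/-- the norm forms of `(a, b)` and `(c, d)` are isometric -/
def NIso {F : Type*} [Field F] (a b c d : F) : Prop :=
  ∃ e : (Fin 4 → F) ≃ₗ[F] (Fin 4 → F), ∀ x, nf c d (e x) = nf a b x

/-- `S` is the quaternionic structure of the field `F` -/
def IsStructOf (F : Type*) [Field F] (S : QS.QStruct) : Prop :=
  ∃ φ : Fˣ →* S.G, Function.Surjective φ ∧ (∀ a, φ a = 1 ↔ IsSquare a) ∧ S.neg = φ (-1) ∧
    ∀ a b c d : Fˣ, S.q (φ a) (φ b) = S.q (φ c) (φ d) ↔ NIso (a : F) b c d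

theorem ud_four {F : Type} [Field F] (a b : Fˣ) (x y : Fin 4 → F) :
    EWG.ud ![1, -a, -b, a * b] x y =
      x 0 * y 0 - a * x 1 * y 1 - b * x 2 * y 2 + a * b * x 3 * y 3 := by
  rw [EWG.ud_apply, Fin.sum_univ_four]
  simp
  ring

theorem nf_eq {F : Type} [Field F] (a b : Fˣ) (x : Fin 4 → F) :
    EWG.ud ![1, -a, -b, a * b] x x = nf (a : F) b x := by
  rw [ud_four]
  unfold nf
  ring

theorem ud_polar {F : Type} [Field F] (a b : Fˣ) (x y : Fin 4 → F) :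
    2 * EWG.ud ![1, -a, -b, a * b] x y = nf (a : F) b (x + y) - nf (a : F) b x -
      nf (a : F) b y := by
  rw [ud_four]
  unfold nf
  simp only [Pi.add_apply]
  ring

/-- isometry of norm forms is equality in the Witt ring -/
theorem niso_iff (hI : EWG.Stmt_ISO) {F : Type} [Field F] (hF : EWG.Good F) (a b c d : Fˣ) :
    NIso (a : F) b c d ↔ EWG.pf a b = EWG.pf c d := by
  rw [hI F hF a b c d]
  constructor
  · rintro ⟨e, he⟩
    refine ⟨e, fun x y => ?_⟩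
    apply mul_left_cancel₀ hF.two
    rw [ud_polar, ud_polar, ← map_add, he, he, he]
  · rintro ⟨e, he⟩
    refine ⟨e, fun x => ?_⟩
    rw [← nf_eq, ← nf_eq, he]

/-- `I³ = 0` from the universality of the norm forms -/
theorem i3_of (hP : EWG.Stmt_PF3) {F : Type} [Field F] (hF : EWG.Good F)
    (hu : ∀ a b c : Fˣ, ∃ x, nf (a : F) b x = c) : EWG.I3 F := by
  intro a b c
  rw [hP F hF]
  obtain ⟨i, hi⟩ := hF.neg
  obtain ⟨x, hx⟩ := hu a b c
  refine ⟨x 0, i * x 1, i * x 2, x 3, ?_⟩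
  rw [← hx]
  unfold nf
  rw [mul_pow, mul_pow, hi]
  ring

/-- The field theorem from its parts. -/
theorem field_theorem (hT : ETT.Stmt_FTT) (hP : EWG.Stmt_PF3) (hI : EWG.Stmt_ISO)
    (hQ : EWG.Stmt_QSF) (F : Type) [Field F]
    (hW : ∀ S : ETT.Sys (SeparableClosure F ≃ₐ[F] SeparableClosure F),
      (ETT.HasMu F → S.cyc = 1) → ETT.IWAfor S)
    (h2 : (2 : F) ≠ 0) (hi : ∃ i : F, i ^ 2 = -1)
    (hf : Finite (Fˣ ⧸ (powMonoidHom 2 : Fˣ →* Fˣ).range))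
    (hu : ∀ a b c : Fˣ, ∃ x, nf (a : F) b x = c) :
    (∃ a : Fˣ, ∀ b c : Fˣ, ∃ d : Fˣ, NIso (a : F) d b c) ∧ (∃ S, IsStructOf F S) ∧
      ∀ S, IsStructOf F S → QS.ElemType S := by
  have hF : EWG.Good F := ⟨h2, hi⟩
  have hi3 := i3_of hP hF hu
  have hfin : Finite (EWG.VV F) := hf
  obtain ⟨a, ha⟩ := hT F hF hi3 hfin hW
  have hmem : ∀ b c : Fˣ, EWG.pf b c ∈ (EWG.I F) ^ 2 := by
    intro b c
    rw [pow_two]
    exact Ideal.mul_mem_mul (Ideal.subset_span ⟨b, rfl⟩) (Ideal.subset_span ⟨c, rfl⟩)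
  have hslot : ∀ b c : Fˣ, ∃ d : Fˣ, NIso (a : F) d b c := by
    intro b c
    obtain ⟨d, hd⟩ := ha _ (hmem b c)
    exact ⟨d, (niso_iff hI hF _ _ _ _).2 hd⟩
  refine ⟨⟨a, hslot⟩, ?_, ?_⟩
  · obtain ⟨S, φ, h1, h2, h3, h4⟩ := hQ F hF
    refine ⟨S, φ, h1, h2, h3, fun b c d e => ?_⟩
    rw [h4, niso_iff hI hF]
  · rintro S ⟨φ, h1, h2, h3, h4⟩
    have hfs : Finite S.G := by
      apply Finite.of_surjective
        (QuotientGroup.lift ((powMonoidHom 2 : Fˣ →* Fˣ).range) φ ?_)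
      · intro g
        obtain ⟨b, rfl⟩ := h1 g
        exact ⟨QuotientGroup.mk b, rfl⟩
      · rintro _ ⟨b, rfl⟩
        rw [MonoidHom.mem_ker, h2]
        exact ⟨b, by rw [powMonoidHom_apply, pow_two]⟩
    apply (QS.main S).2
    refine ⟨φ a, fun β => ?_⟩
    obtain ⟨g, h, rfl⟩ := S.surj β
    obtain ⟨b, rfl⟩ := h1 g
    obtain ⟨c, rfl⟩ := h1 h
    obtain ⟨d, hd⟩ := hslot b c
    exact ⟨φ d, (h4 _ _ _ _).2 hd⟩

end Pool.Agent.ETB
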