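import Pool.Agent.ETB.Final
import Pool.Agent.ETG.Iface
import Pool.Agent.EWG.All
import Pool.Agent.EWG.ISO

/-!
Final assembly of the general field theorem (`-1` a square, no hypothesis on `Iⁿ`).
-/

set_option autoImplicit false

namespace Pool.Agent.ETB

open Pool.Agent

theorem q_iso : EWG.Stmt_ISO := EWG.iso_proof EWG.q_rel EWG.q_clq EWG.q_pfz EWG.q_lnk

/-- the two forms of `S is the structure of F` -/
theorem isStructOf_iff {F : Type} [Field F] (hF : EWG.Good F) (S : QS.QStruct) :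
    IsStructOf F S ↔ ETG.IsS F S := by
  unfold IsStructOf ETG.IsS
  simp only [niso_iff q_iso hF]

/-- The general field theorem from `ETG.Stmt_GEN`. -/
theorem general_theorem (hG : ETG.Stmt_GEN) (F : Type) [Field F]
    (h2 : (2 : F) ≠ 0) (hi : ∃ i : F, i ^ 2 = -1)
    (hf : Finite (Fˣ ⧸ (powMonoidHom 2 : Fˣ →* Fˣ).range)) :
    (∃ S, IsStructOf F S) ∧ ∀ S, IsStructOf F S → QS.ElemType S := by
  have hF : EWG.Good F := ⟨h2, hi⟩
  have hfin : Finite (EWG.VV F) := hf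
  refine ⟨?_, fun S hS => hG F hF hfin S ((isStructOf_iff hF S).1 hS)⟩
  obtain ⟨S, φ, h1, h2, h3, h4⟩ := EWG.q_qsf F hF
  exact ⟨S, (isStructOf_iff hF S).2 ⟨φ, h1, h2, h3, h4⟩⟩

end Pool.Agent.ETB
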