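import Pool.Agent.ETB.Final
import Pool.Agent.ETG.IfaceV
import Pool.Agent.EWH.All

/-!
Final assembly of the field theorem for all fields (`-1` arbitrary) from `ETG.Stmt_ALL`.
-/

set_option autoImplicit false

namespace Pool.Agent.ETB

open Pool.Agent

/-- isometry of norm forms is equality in the Witt ring (arbitrary `-1`) -/
theorem niso_iff_h {F : Type} [Field F] (hF : EWH.Two F) (a b c d : Fˣ) :
    NIso (a : F) b c d ↔ EWH.pf a b = EWH.pf c d := by
  rw [EWH.q_iso F hF a b c d]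
  constructor
  · rintro ⟨e, he⟩
    refine ⟨e, fun x y => ?_⟩
    apply mul_left_cancel₀ (show (2 : F) ≠ 0 from hF)
    rw [ud_polar, ud_polar, ← map_add, he, he, he]
  · rintro ⟨e, he⟩
    refine ⟨e, fun x => ?_⟩
    rw [← nf_eq, ← nf_eq, he]

/-- the two forms of `S is the structure of F` (arbitrary `-1`) -/
theorem isStructOf_iff_h {F : Type} [Field F] (hF : EWH.Two F) (S : QS.QStruct) :
    IsStructOf F S ↔ ETG.IsSh F S := by
  unfold IsStructOf ETG.IsSh
  simp only [niso_iff_h hF]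

/-- The field theorem for all fields from `ETG.Stmt_ALL`. -/
theorem all_theorem (hA : ETG.Stmt_ALL) (F : Type) [Field F] (h2 : (2 : F) ≠ 0)
    (hf : Finite (Fˣ ⧸ (powMonoidHom 2 : Fˣ →* Fˣ).range)) :
    (∃ S, IsStructOf F S) ∧ ∀ S, IsStructOf F S → QS.ElemType S := by
  have hfin : Finite (EWG.VV F) := hf
  refine ⟨?_, fun S hS => hA F h2 hfin S ((isStructOf_iff_h h2 S).1 hS)⟩
  obtain ⟨S, hS⟩ := EWH.q_qsf F h2
  exact ⟨S, (isStructOf_iff_h h2 S).2 hS⟩

end Pool.Agent.ETB
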