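import Pool.Agent.ETB.Final

/-!
Reduction of a field (in any universe) with finitely many square classes to a countable subfield
with the same quaternionic structure.
-/

set_option autoImplicit false

namespace Pool.Agent.ETB.Un

open Pool.Agent.ETB

universe u v

open Matrix

section closure

/-- a countable set is contained in a countable set closed under countably many operations -/
theorem exists_closed {F : Type u} {ι : Type} [Countable ι] (f : ι → (Fin 4 → F) → F)
    (s : Set F) (hs : s.Countable) :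
    ∃ t : Set F, s ⊆ t ∧ t.Countable ∧ ∀ i x, (∀ j, x j ∈ t) → f i x ∈ t := by
  let T : ℕ → Set F := fun n => Nat.rec s (fun _ t => t ∪ ⋃ i, f i '' {x | ∀ j, x j ∈ t}) n
  have h0 : T 0 = s := rfl
  have h1 : ∀ n, T (n + 1) = T n ∪ ⋃ i, f i '' {x | ∀ j, x j ∈ T n} := fun n => rfl
  have hc : ∀ n, (T n).Countable := by
    intro n
    induction n with
    | zero => exact hs
    | succ n ih =>
      rw [h1]
      refine ih.union (Set.countable_iUnion fun i => Set.Countable.image ?_ _)
      have : {x : Fin 4 → F | ∀ j, x j ∈ T n} = Set.univ.pi fun _ => T n := by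
        ext x; simp
      rw [this]
      exact Set.countable_univ_pi fun _ => ih
  have hm : Monotone T := by
    apply monotone_nat_of_le_succ
    intro n
    rw [h1]
    exact Set.subset_union_left
  refine ⟨⋃ n, T n, ?_, Set.countable_iUnion hc, ?_⟩
  · rw [← h0]
    exact Set.subset_iUnion T 0
  · intro i x hx
    have hx' : ∀ j, ∃ n, x j ∈ T n := fun j => Set.mem_iUnion.1 (hx j)
    choose n hn using hx'
    refine Set.mem_iUnion.2 ⟨(Finset.univ.sup n) + 1, ?_⟩
    rw [h1]
    right
    refine Set.mem_iUnion.2 ⟨i, x, fun j => ?_, rfl⟩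
    exact hm (Finset.le_sup (Finset.mem_univ j)) (hn j)

end closure

section forms

variable {F : Type u} [Field F]

theorem pi_eq_sum_univ_aux (x : Fin 4 → F) : x = ∑ k, x k • (Pi.single k 1 : Fin 4 → F) := by
  ext j
  rw [Finset.sum_apply]
  simp [Pi.single_apply]

/-- coefficients of the norm form -/
def wt (a b : F) : Fin 4 → F := ![1, -a, -b, a * b]

theorem nf_sum (a b : F) (x : Fin 4 → F) : nf a b x = ∑ k, wt a b k * x k ^ 2 := by
  rw [Fin.sum_univ_four]
  simp [nf, wt]
  ring

/-- matrix form of the isometry of norm forms -/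
def MIso (a b c d : F) : Prop :=
  ∃ M N : Matrix (Fin 4) (Fin 4) F, M * N = 1 ∧
    M * diagonal (wt c d) * Mᵀ = diagonal (wt a b)

theorem quad_mat (w : Fin 4 → F) (M : Matrix (Fin 4) (Fin 4) F) (i j : Fin 4) :
    (M * diagonal w * Mᵀ) i j = ∑ k, w k * (M i k * M j k) := by
  rw [Matrix.mul_apply]
  refine Finset.sum_congr rfl fun k _ => ?_
  rw [Matrix.mul_diagonal, Matrix.transpose_apply]
  ring

theorem polar (a b : F) (x y : Fin 4 → F) :
    2 * ∑ k, wt a b k * (x k * y k) = nf a b (x + y) - nf a b x - nf a b y := by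
  simp only [nf_sum, Fin.sum_univ_four, Pi.add_apply]
  ring

theorem niso_mat (h2 : (2 : F) ≠ 0) (a b c d : F) : NIso a b c d ↔ MIso a b c d := by
  constructor
  · rintro ⟨e, he⟩
    refine ⟨Matrix.of fun i => e (Pi.single i 1), Matrix.of fun i => e.symm (Pi.single i 1),
      ?_, ?_⟩
    · ext i j
      rw [Matrix.mul_apply]
      simp only [Matrix.of_apply]
      have h1 : e.symm (e (Pi.single i 1)) = Pi.single i 1 := e.symm_apply_apply _
      have h3 : e.symm (e (Pi.single i 1)) =
          ∑ k, (e (Pi.single i 1) k) • e.symm (Pi.single k 1) := by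
        conv_lhs => rw [pi_eq_sum_univ_aux (e (Pi.single i 1)), map_sum]
        simp only [map_smul]
      rw [h1] at h3
      have h4 := congrFun h3 j
      rw [Finset.sum_apply] at h4
      simp only [Pi.smul_apply, smul_eq_mul] at h4
      rw [← h4, Matrix.one_apply, Pi.single_apply]
      simp [eq_comm]
    · ext i j
      rw [quad_mat]
      simp only [Matrix.of_apply]
      apply mul_left_cancel₀ h2
      rw [polar, ← map_add, he, he, he, ← polar]
      congr 1
      rw [Matrix.diagonal_apply]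
      by_cases hij : i = j
      · subst hij
        rw [if_pos rfl, Finset.sum_eq_single i]
        · simp
        · intro k _ hk
          simp [hk]
        · simp
      · rw [if_neg hij]
        apply Finset.sum_eq_zero
        intro k _
        by_cases h1 : k = i
        · subst h1
          simp [hij]
        · simp [Pi.single_apply, h1]
  · rintro ⟨M, N, h1, h3⟩
    have h1' : N * M = 1 := mul_eq_one_comm.1 h1
    refine ⟨{ toFun := fun x => x ᵥ* M
              invFun := fun x => x ᵥ* N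
              map_add' := fun x y => Matrix.add_vecMul _ _ _
              map_smul' := fun r x => Matrix.smul_vecMul _ _ _
              left_inv := fun x => by
                show (x ᵥ* M) ᵥ* N = x
                rw [Matrix.vecMul_vecMul, h1, Matrix.vecMul_one]
              right_inv := fun x => by
                show (x ᵥ* N) ᵥ* M = x
                rw [Matrix.vecMul_vecMul, h1', Matrix.vecMul_one] }, fun x => ?_⟩
    show nf c d (x ᵥ* M) = nf a b x
    have h5 : ∀ i j, ∑ k, wt c d k * (M i k * M j k) = if i = j then wt a b i else 0 := by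
      intro i j
      rw [← quad_mat, h3, Matrix.diagonal_apply]
    rw [nf_sum, nf_sum]
    have h6 : ∀ k, (x ᵥ* M) k = ∑ i, x i * M i k := fun k => by
      rw [Matrix.vecMul, dotProduct]
    calc ∑ k, wt c d k * ((x ᵥ* M) k) ^ 2
        = ∑ k, ∑ i, ∑ j, x i * x j * (wt c d k * (M i k * M j k)) := by
          refine Finset.sum_congr rfl fun k _ => ?_
          rw [h6, pow_two, Finset.sum_mul_sum, Finset.mul_sum]
          refine Finset.sum_congr rfl fun i _ => ?_
          rw [Finset.mul_sum]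
          refine Finset.sum_congr rfl fun j _ => ?_
          ring
      _ = ∑ i, ∑ j, x i * x j * ∑ k, wt c d k * (M i k * M j k) := by
          rw [Finset.sum_comm]
          refine Finset.sum_congr rfl fun i _ => ?_
          rw [Finset.sum_comm]
          refine Finset.sum_congr rfl fun j _ => ?_
          rw [Finset.mul_sum]
      _ = ∑ i, wt a b i * x i ^ 2 := by
          refine Finset.sum_congr rfl fun i _ => ?_
          simp only [h5]
          rw [Finset.sum_eq_single i]
          · rw [if_pos rfl]; ring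
          · intro j _ hj
            rw [if_neg (Ne.symm hj), mul_zero]
          · simp

theorem wt_map {K : Type v} [Field K] (ι : K →+* F) (a b : K) :
    (fun i => ι (wt a b i)) = wt (ι a) (ι b) := by
  funext i
  fin_cases i <;> simp [wt]

theorem MIso.map {K : Type v} [Field K] (ι : K →+* F) {a b c d : K} (h : MIso a b c d) :
    MIso (ι a) (ι b) (ι c) (ι d) := by
  obtain ⟨M, N, h1, h3⟩ := h
  refine ⟨M.map ι, N.map ι, ?_, ?_⟩
  · rw [← Matrix.map_mul, h1, Matrix.map_one ι (map_zero ι) (map_one ι)]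
  · have h4 := congrArg (fun X => X.map ι) h3
    simp only [Matrix.map_mul] at h4
    rw [Matrix.diagonal_map (map_zero ι), Matrix.diagonal_map (map_zero ι),
      Matrix.transpose_map] at h4
    rw [← wt_map ι a b, ← wt_map ι c d]
    exact h4

theorem niso_symm {a b c d : F} (h : NIso a b c d) : NIso c d a b := by
  obtain ⟨e, he⟩ := h
  refine ⟨e.symm, fun x => ?_⟩
  rw [← he, e.apply_symm_apply]

theorem niso_trans {a b c d a' b' : F} (h : NIso a b c d) (h' : NIso c d a' b') :
    NIso a b a' b' := by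
  obtain ⟨e, he⟩ := h
  obtain ⟨e', he'⟩ := h'
  refine ⟨e.trans e', fun x => ?_⟩
  rw [LinearEquiv.trans_apply, he', he]

theorem niso_scale (a b : F) {x y : F} (hx : x ≠ 0) (hy : y ≠ 0) :
    NIso a b (a * x ^ 2) (b * y ^ 2) := by
  have hs : ∀ i, (![1, x⁻¹, y⁻¹, (x * y)⁻¹] : Fin 4 → F) i ≠ 0 := by
    intro i
    fin_cases i
    · simp
    · simpa using hx
    · simpa using hy
    · simpa using ⟨hy, hx⟩
  refine ⟨LinearEquiv.piCongrRight fun i => LinearEquiv.smulOfNeZero F F _ (hs i), fun v => ?_⟩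
  simp only [nf, LinearEquiv.piCongrRight_apply, LinearEquiv.smulOfNeZero_apply, smul_eq_mul,
    Matrix.cons_val_zero, Matrix.cons_val_one, Matrix.cons_val]
  field_simp

end forms

section sub

variable {F : Type u} [Field F]

open Classical in
/-- the closing operations -/
noncomputable def ops (i : Fin 6 ⊕ (Fin 2 × Fin 4 × Fin 4)) (x : Fin 4 → F) : F :=
  match i with
  | Sum.inl 0 => x 0 + x 1
  | Sum.inl 1 => x 0 * x 1
  | Sum.inl 2 => - x 0
  | Sum.inl 3 => (x 0)⁻¹
  | Sum.inl 4 => 1
  | Sum.inl 5 => if h : IsSquare (x 0) then h.choose else 0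
  | Sum.inr (k, i, j) =>
    if h : MIso (x 0) (x 1) (x 2) (x 3) then
      (if k = 0 then h.choose i j else h.choose_spec.choose i j) else 0

open Classical in
theorem ops_sqrt (x : Fin 4 → F) (h : IsSquare (x 0)) : ops (Sum.inl 5) x = h.choose := by
  show (if h : IsSquare (x 0) then h.choose else 0) = _
  rw [dif_pos h]

open Classical in
theorem ops_M (i j : Fin 4) (x : Fin 4 → F) (h : MIso (x 0) (x 1) (x 2) (x 3)) :
    ops (Sum.inr (0, i, j)) x = h.choose i j := by
  show (if h : MIso (x 0) (x 1) (x 2) (x 3) then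
    (if (0 : Fin 2) = 0 then h.choose i j else h.choose_spec.choose i j) else 0) = _
  rw [dif_pos h, if_pos rfl]

open Classical in
theorem ops_N (i j : Fin 4) (x : Fin 4 → F) (h : MIso (x 0) (x 1) (x 2) (x 3)) :
    ops (Sum.inr (1, i, j)) x = h.choose_spec.choose i j := by
  show (if h : MIso (x 0) (x 1) (x 2) (x 3) then
    (if (1 : Fin 2) = 0 then h.choose i j else h.choose_spec.choose i j) else 0) = _
  rw [dif_pos h, if_neg (by decide)]

theorem exists_sub (hf : Finite (Fˣ ⧸ (powMonoidHom 2 : Fˣ →* Fˣ).range)) :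
    ∃ K : Subfield F, Countable K ∧
      (∀ a : Fˣ, ∃ (b : Kˣ) (c : Fˣ), a = Units.map (K.subtype : K →* F) b * c ^ 2) ∧
      (∀ b : K, IsSquare (b : F) → IsSquare b) ∧
      ∀ a b c d : K, MIso (a : F) b c d → MIso a b c d := by
  let s : Set F := insert 0 (Set.range fun g : Fˣ ⧸ (powMonoidHom 2 : Fˣ →* Fˣ).range =>
    ((Quotient.out g : Fˣ) : F))
  have hs : s.Countable := (Set.countable_range _).insert 0
  obtain ⟨t, hst, htc, ht⟩ := exists_closed (F := F) ops s hs
  have z : (0 : F) ∈ t := hst (Set.mem_insert _ _)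
  have hadd : ∀ a b, a ∈ t → b ∈ t → a + b ∈ t := by
    intro a b ha hb
    have := ht (Sum.inl 0) ![a, b, 0, 0] (by
      intro j; fin_cases j <;> simp [ha, hb, z])
    simpa [ops] using this
  have hmul : ∀ a b, a ∈ t → b ∈ t → a * b ∈ t := by
    intro a b ha hb
    have := ht (Sum.inl 1) ![a, b, 0, 0] (by
      intro j; fin_cases j <;> simp [ha, hb, z])
    simpa [ops] using this
  have hneg : ∀ a, a ∈ t → -a ∈ t := by
    intro a ha
    have := ht (Sum.inl 2) ![a, 0, 0, 0] (by
      intro j; fin_cases j <;> simp [ha, z])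
    simpa [ops] using this
  have hinv : ∀ a, a ∈ t → a⁻¹ ∈ t := by
    intro a ha
    have := ht (Sum.inl 3) ![a, 0, 0, 0] (by
      intro j; fin_cases j <;> simp [ha, z])
    simpa [ops] using this
  have hone : (1 : F) ∈ t := by
    have := ht (Sum.inl 4) ![0, 0, 0, 0] (by
      intro j; fin_cases j <;> simp [z])
    simpa [ops] using this
  let K : Subfield F :=
    { carrier := t
      mul_mem' := fun {a b} ha hb => hmul a b ha hb
      one_mem' := hone
      add_mem' := fun {a b} ha hb => hadd a b ha hb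
      zero_mem' := z
      neg_mem' := fun {a} ha => hneg a ha
      inv_mem' := fun a ha => hinv a ha }
  have hK : ∀ a : F, a ∈ K ↔ a ∈ t := fun a => Iff.rfl
  refine ⟨K, htc.to_subtype, ?_, ?_, ?_⟩
  · intro a
    let g : Fˣ ⧸ (powMonoidHom 2 : Fˣ →* Fˣ).range := QuotientGroup.mk a
    have hg : (QuotientGroup.mk (Quotient.out g) :
        Fˣ ⧸ (powMonoidHom 2 : Fˣ →* Fˣ).range) = QuotientGroup.mk a := Quotient.out_eq g
    rw [QuotientGroup.eq] at hg
    obtain ⟨c, hc⟩ := hg
    have hm : ((Quotient.out g : Fˣ) : F) ∈ K :=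
      hst (Set.mem_insert_of_mem _ ⟨g, rfl⟩)
    have hn : (⟨((Quotient.out g : Fˣ) : F), hm⟩ : K) ≠ 0 := by
      intro h
      exact (Quotient.out g : Fˣ).ne_zero (congrArg Subtype.val h)
    refine ⟨Units.mk0 ⟨((Quotient.out g : Fˣ) : F), hm⟩ hn, c, ?_⟩
    have h1 : c ^ 2 = (Quotient.out g)⁻¹ * a := hc
    rw [h1]
    ext
    show (a : F) = ((Quotient.out g : Fˣ) : F) * (((Quotient.out g : Fˣ)⁻¹ * a : Fˣ) : F)
    rw [← Units.val_mul]
    congr 1
    group
  · intro b hb
    have hbt : (b : F) ∈ t := b.2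
    have h1 := ht (Sum.inl 5) ![(b : F), 0, 0, 0] (by
      intro j; fin_cases j <;> simp [z, hbt])
    have h3 : ops (Sum.inl 5) ![(b : F), 0, 0, 0] = hb.choose :=
      ops_sqrt ![(b : F), 0, 0, 0] hb
    rw [h3] at h1
    exact ⟨⟨hb.choose, h1⟩, Subtype.ext hb.choose_spec⟩
  · intro a b c d h
    have hx : ∀ j, (![(a : F), b, c, d] : Fin 4 → F) j ∈ t := by
      intro j; fin_cases j
      · exact a.2
      · exact b.2
      · exact c.2
      · exact d.2
    have hM : ∀ i j, h.choose i j ∈ t := by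
      intro i j
      have h1 := ht (Sum.inr (0, i, j)) _ hx
      have h3 : ops (Sum.inr (0, i, j)) ![(a : F), b, c, d] = h.choose i j :=
        ops_M i j ![(a : F), b, c, d] h
      rwa [h3] at h1
    have hN : ∀ i j, h.choose_spec.choose i j ∈ t := by
      intro i j
      have h1 := ht (Sum.inr (1, i, j)) _ hx
      have h3 : ops (Sum.inr (1, i, j)) ![(a : F), b, c, d] = h.choose_spec.choose i j :=
        ops_N i j ![(a : F), b, c, d] h
      rwa [h3] at h1
    obtain ⟨h5, h6⟩ := h.choose_spec.choose_spec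
    let M' : Matrix (Fin 4) (Fin 4) K := Matrix.of fun i j => ⟨h.choose i j, hM i j⟩
    let N' : Matrix (Fin 4) (Fin 4) K :=
      Matrix.of fun i j => ⟨h.choose_spec.choose i j, hN i j⟩
    have hMm : M'.map K.subtype = h.choose := by ext i j; rfl
    have hNm : N'.map K.subtype = h.choose_spec.choose := by ext i j; rfl
    have hinj : Function.Injective fun X : Matrix (Fin 4) (Fin 4) K => X.map K.subtype :=
      Matrix.map_injective Subtype.val_injective
    refine ⟨M', N', hinj ?_, hinj ?_⟩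
    · show (M' * N').map K.subtype = (1 : Matrix (Fin 4) (Fin 4) K).map K.subtype
      rw [Matrix.map_mul, hMm, hNm, h5, Matrix.map_one _ (map_zero _) (map_one _)]
    · show (M' * diagonal (wt c d) * M'ᵀ).map K.subtype = (diagonal (wt a b)).map K.subtype
      rw [Matrix.map_mul, Matrix.map_mul, Matrix.diagonal_map (map_zero _),
        Matrix.diagonal_map (map_zero _), Matrix.transpose_map, hMm]
      have e1 := wt_map K.subtype a b
      have e2 := wt_map K.subtype c d
      change (h.choose * diagonal (fun i => K.subtype (wt c d i)) * h.chooseᵀ) =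
        diagonal (fun i => K.subtype (wt a b i))
      rw [e1, e2]
      exact h6

end sub

section transport

variable {F : Type u} [Field F]

theorem isStructOf_hom {K : Type v} [Field K] (ι : K →+* F)
    (hA : ∀ a : Fˣ, ∃ (b : Kˣ) (c : Fˣ), a = Units.map (ι : K →* F) b * c ^ 2)
    (hB : ∀ b : K, IsSquare (ι b) → IsSquare b)
    (hC : ∀ a b c d : K, NIso (ι a) (ι b) (ι c) (ι d) ↔ NIso a b c d) (S : QS.QStruct) :
    IsStructOf F S ↔ IsStructOf K S := by
  have sqU : ∀ (L : Type u) [Field L] (b : Lˣ), IsSquare (b : L) ↔ IsSquare b := by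
    intro L _ b
    constructor
    · rintro ⟨r, hr⟩
      have hr0 : r ≠ 0 := by
        rintro rfl
        exact b.ne_zero (by rw [hr, mul_zero])
      exact ⟨Units.mk0 r hr0, Units.ext hr⟩
    · rintro ⟨r, hr⟩
      exact ⟨r, by rw [hr, Units.val_mul]⟩
  have sqV : ∀ (L : Type v) [Field L] (b : Lˣ), IsSquare (b : L) ↔ IsSquare b := by
    intro L _ b
    constructor
    · rintro ⟨r, hr⟩
      have hr0 : r ≠ 0 := by
        rintro rfl
        exact b.ne_zero (by rw [hr, mul_zero])
      exact ⟨Units.mk0 r hr0, Units.ext hr⟩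
    · rintro ⟨r, hr⟩
      exact ⟨r, by rw [hr, Units.val_mul]⟩
  have hsq : ∀ b : Kˣ, IsSquare (Units.map (ι : K →* F) b) ↔ IsSquare b := by
    intro b
    rw [← sqU F, ← sqV K]
    exact ⟨fun h => hB _ h, fun h => h.map ι⟩
  constructor
  · rintro ⟨φ, h1, h2, h3, h4⟩
    refine ⟨φ.comp (Units.map (ι : K →* F)), ?_, ?_, ?_, ?_⟩
    · intro g
      obtain ⟨a, rfl⟩ := h1 g
      obtain ⟨b, c, rfl⟩ := hA a
      refine ⟨b, ?_⟩
      have hc : φ (c ^ 2) = 1 := (h2 _).2 ⟨c, pow_two c⟩
      rw [map_mul, hc, mul_one]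
      rfl
    · intro a
      show φ (Units.map (ι : K →* F) a) = 1 ↔ _
      rw [h2, hsq]
    · rw [h3]
      show φ (-1) = φ (Units.map (ι : K →* F) (-1))
      congr 1
      ext
      simp
    · intro a b c d
      exact (h4 _ _ _ _).trans (hC a b c d)
  · rintro ⟨φ, h1, h2, h3, h4⟩
    let j : Kˣ →* Fˣ ⧸ (powMonoidHom 2 : Fˣ →* Fˣ).range :=
      (QuotientGroup.mk' _).comp (Units.map (ι : K →* F))
    have hmk : ∀ x : Fˣ, (QuotientGroup.mk' (powMonoidHom 2 : Fˣ →* Fˣ).range) x = 1 ↔
        IsSquare x := by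
      intro x
      rw [QuotientGroup.mk'_apply, QuotientGroup.eq_one_iff]
      constructor
      · rintro ⟨r, hr⟩
        exact ⟨r, by rw [← hr]; exact pow_two r⟩
      · rintro ⟨r, hr⟩
        exact ⟨r, by rw [hr]; exact pow_two r⟩
    have hj : Function.Surjective j := by
      intro g
      obtain ⟨a, rfl⟩ := QuotientGroup.mk'_surjective _ g
      obtain ⟨b, c, rfl⟩ := hA a
      refine ⟨b, ?_⟩
      have hc := (hmk (c ^ 2)).2 ⟨c, pow_two c⟩
      rw [map_mul, hc]
      exact (mul_one ((QuotientGroup.mk' (powMonoidHom 2 : Fˣ →* Fˣ).range)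
        (Units.map (ι : K →* F) b))).symm
    have hk : j.ker ≤ φ.ker := by
      intro b hb
      rw [MonoidHom.mem_ker] at hb ⊢
      rw [h2, ← hsq]
      exact (hmk _).1 hb
    let ψ : (Fˣ ⧸ (powMonoidHom 2 : Fˣ →* Fˣ).range) →* S.G := j.liftOfSurjective hj ⟨φ, hk⟩
    have hψ : ∀ b, ψ (j b) = φ b := fun b =>
      j.liftOfRightInverse_comp_apply _ (Function.rightInverse_surjInv hj) ⟨φ, hk⟩ b
    let Φ : Fˣ →* S.G := ψ.comp (QuotientGroup.mk' _)
    have hΦ : ∀ b : Kˣ, Φ (Units.map (ι : K →* F) b) = φ b := fun b => hψ b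
    have hΦs : ∀ c : Fˣ, Φ (c ^ 2) = 1 := by
      intro c
      show ψ (QuotientGroup.mk' _ (c ^ 2)) = 1
      rw [(hmk (c ^ 2)).2 ⟨c, pow_two c⟩, map_one]
    have hΦm : ∀ (b : Kˣ) (c : Fˣ), Φ (Units.map (ι : K →* F) b * c ^ 2) = φ b := by
      intro b c
      rw [map_mul, hΦs, mul_one, hΦ]
    refine ⟨Φ, ?_, ?_, ?_, ?_⟩
    · intro g
      obtain ⟨b, rfl⟩ := h1 g
      exact ⟨_, hΦ b⟩
    · intro a
      obtain ⟨b, c, rfl⟩ := hA a
      rw [hΦm, h2, ← hsq]
      constructor
      · intro h
        exact h.mul ⟨c, pow_two c⟩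
      · intro h
        have h5 := h.mul (show IsSquare (c⁻¹ ^ 2) from ⟨c⁻¹, pow_two _⟩)
        have h6 : Units.map (ι : K →* F) b * c ^ 2 * c⁻¹ ^ 2 = Units.map (ι : K →* F) b := by
          rw [mul_assoc, ← mul_pow, mul_inv_cancel, one_pow, mul_one]
        rwa [h6] at h5
    · rw [h3, ← hΦ]
      congr 1
      ext
      simp
    · intro a b c d
      obtain ⟨a, x, rfl⟩ := hA a
      obtain ⟨b, y, rfl⟩ := hA b
      obtain ⟨c, z, rfl⟩ := hA c
      obtain ⟨d, w, rfl⟩ := hA d
      rw [hΦm, hΦm, hΦm, hΦm, h4, ← hC]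
      have e1 := niso_scale (ι a) (ι b) x.ne_zero y.ne_zero
      have e2 := niso_scale (ι c) (ι d) z.ne_zero w.ne_zero
      constructor
      · intro h
        exact niso_trans (niso_trans (niso_symm e1) h) e2
      · intro h
        exact niso_trans (niso_trans e1 h) (niso_symm e2)

/-- Reduction to a field in `Type`. -/
theorem exists_small (h2 : (2 : F) ≠ 0)
    (hf : Finite (Fˣ ⧸ (powMonoidHom 2 : Fˣ →* Fˣ).range)) :
    ∃ (K : Type) (_ : Field K), (2 : K) ≠ 0 ∧
      Finite (Kˣ ⧸ (powMonoidHom 2 : Kˣ →* Kˣ).range) ∧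
      ∀ S : QS.QStruct, IsStructOf F S ↔ IsStructOf K S := by
  obtain ⟨K, hKc, hA, hB, hC⟩ := exists_sub hf
  let e : Shrink.{0} K ≃+* K := Shrink.ringEquiv.{0} K
  let ι : Shrink.{0} K →+* F := K.subtype.comp e.toRingHom
  have h2' : (2 : Shrink.{0} K) ≠ 0 := by
    intro h
    apply h2
    have := congrArg ι h
    rwa [map_ofNat, map_zero] at this
  have h2K : (2 : K) ≠ 0 := by
    intro h
    apply h2
    have := congrArg K.subtype h
    rwa [map_ofNat, map_zero] at this
  have hB' : ∀ b : Shrink.{0} K, IsSquare (ι b) → IsSquare b := by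
    intro b hb
    have h3 := hB (e b) hb
    have h5 := h3.map e.symm
    rwa [e.symm_apply_apply] at h5
  have hA' : ∀ a : Fˣ, ∃ (b : (Shrink.{0} K)ˣ) (c : Fˣ),
      a = Units.map (ι : Shrink.{0} K →* F) b * c ^ 2 := by
    intro a
    obtain ⟨b, c, h⟩ := hA a
    refine ⟨Units.map (e.symm : K →* Shrink.{0} K) b, c, ?_⟩
    rw [h]
    congr 1
    ext
    show ((b : K) : F) = ((e (e.symm (b : K)) : K) : F)
    rw [e.apply_symm_apply]
  have hC' : ∀ a b c d : Shrink.{0} K, NIso (ι a) (ι b) (ι c) (ι d) ↔ NIso a b c d := by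
    intro a b c d
    rw [niso_mat h2, niso_mat h2']
    constructor
    · intro h
      have h3 : MIso (e a) (e b) (e c) (e d) := hC _ _ _ _ h
      have h5 := h3.map (e.symm : K →+* Shrink.{0} K)
      simpa using h5
    · intro h
      exact h.map ι
  refine ⟨Shrink.{0} K, inferInstance, h2', ?_, fun S => isStructOf_hom ι hA' hB' hC' S⟩
  -- finiteness
  let g : ((Shrink.{0} K)ˣ ⧸ (powMonoidHom 2 : (Shrink.{0} K)ˣ →* (Shrink.{0} K)ˣ).range) →
      Fˣ ⧸ (powMonoidHom 2 : Fˣ →* Fˣ).range :=
    QuotientGroup.map _ _ (Units.map (ι : Shrink.{0} K →* F)) (by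
      rintro _ ⟨r, rfl⟩
      exact ⟨Units.map (ι : Shrink.{0} K →* F) r, by simp [powMonoidHom_apply]⟩)
  refine Finite.of_injective g ?_
  intro x y hxy
  obtain ⟨x, rfl⟩ := QuotientGroup.mk_surjective x
  obtain ⟨y, rfl⟩ := QuotientGroup.mk_surjective y
  have h3 : (QuotientGroup.mk (Units.map (ι : Shrink.{0} K →* F) x) :
      Fˣ ⧸ (powMonoidHom 2 : Fˣ →* Fˣ).range) =
      QuotientGroup.mk (Units.map (ι : Shrink.{0} K →* F) y) := hxy
  rw [QuotientGroup.eq] at h3 ⊢
  rw [← map_inv, ← map_mul] at h3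
  obtain ⟨r, hr⟩ := h3
  have h5 : IsSquare (ι ((x⁻¹ * y : (Shrink.{0} K)ˣ) : Shrink.{0} K)) := by
    refine ⟨r, ?_⟩
    have := congrArg Units.val hr
    rw [powMonoidHom_apply, pow_two, Units.val_mul] at this
    exact this.symm
  obtain ⟨t, ht⟩ := hB' _ h5
  have ht0 : t ≠ 0 := by
    rintro rfl
    exact (x⁻¹ * y).ne_zero (by rw [ht, mul_zero])
  refine ⟨Units.mk0 t ht0, ?_⟩
  ext
  rw [powMonoidHom_apply, pow_two, Units.val_mul, ht]
  rfl

end transport

end Pool.Agent.ETB.Un
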