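import Pool.Agent.ETB.Final3
import Pool.Agent.ETB.Univ

/-!
Final assembly of the field theorem for all fields in all universes.
-/

set_option autoImplicit false

namespace Pool.Agent.ETB

open Pool.Agent

universe u

/-- The field theorem for all fields (in any universe) from `ETG.Stmt_ALL`. -/
theorem all_theorem_u (hA : ETG.Stmt_ALL) (F : Type u) [Field F] (h2 : (2 : F) ≠ 0)
    (hf : Finite (Fˣ ⧸ (powMonoidHom 2 : Fˣ →* Fˣ).range)) :
    (∃ S, IsStructOf F S) ∧ ∀ S, IsStructOf F S → QS.ElemType S := by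
  obtain ⟨K, _, h2', hf', hS⟩ := Un.exists_small h2 hf
  obtain ⟨⟨S, h⟩, hall⟩ := all_theorem hA K h2' hf'
  exact ⟨⟨S, (hS S).2 h⟩, fun S h => hall S ((hS S).1 h)⟩

end Pool.Agent.ETB
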