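import Pool.Agent.ETB.AsmT
import Pool.Agent.ETB.Final2
import Pool.Agent.ETG.All
import Pool.Agent.ETX.All
import Pool.Agent.GTW.All
import Pool.Agent.GTF.FTW
import Pool.Agent.GTF.Cnv
import Pool.Agent.EWH.All
import Pool.Agent.DQX.All
import Pool.Agent.DQX.QXFA

/-!
The general field theorem (`-1` a square): tower, descent, realisation.
-/

set_option autoImplicit false

namespace Pool.Agent.ETB

open Pool.Agent

theorem ftow : GTF.Stmt_FTOW := by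
  have hFSV : ETT.Stmt_FSV := ETT.fsv_proof
  have hSTD : ETT.Stmt_STD := ETT.std_proof hFSV
  have hADB : ETT.Stmt_ADB := ETT.adb_proof
  have hGFX : ETT.Stmt_GFX := ETT.gfx_proof hADB
  have hKU2 : ETT.Stmt_KU2 := ETT.ku2_proof hADB hGFX
  have hKU3 : ETT.Stmt_KU3 := ETT.ku3_proof hADB hGFX
  have hUP2 : ETT.Stmt_UP2 := ETT.up2_proof
  have hIND : ETT.Stmt_IND := ETT.ind_proof hUP2
  have hVFI : ETT.Stmt_VFI := ETT.vfi_proof
  have hVFU : ETT.Stmt_VFU := ETT.vfu_proof hADB hIND hGFX hKU2 hKU3 hVFI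
  have hCYC : ETT.Stmt_CYC := ETT.cyc_proof hGFX
  have hLFT : ETT.Stmt_LFT := ETT.lft_proof
  have hAIX : ETT.Stmt_AIX := ETT.aix_proof
  have hKU1 : ETT.Stmt_KU1 := ETT.ku1_proof hADB hAIX hGFX
  have hLVA : ETT.Stmt_LVA := ETT.lva_proof hADB hAIX hGFX hKU1
  have hSYS : ETT.Stmt_SYS := ETT.sys_proof hADB hKU2 hKU3 hVFU hCYC hLFT hLVA
  have hQDX : ETT.Stmt_QDX := ETT.qdx_proof hKU3
  have hEXP : ETT.Stmt_EXP := ETT.exp_proof
  exact GTF.ftow_proof EWG.q_rel EWG.q_ecn hADB hIND hGFX hKU1 hKU2 hKU3 hQDX hVFU hFSV hSTD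
    hSYS hEXP ETX.iwg

theorem tow : ETG.Stmt_TOW :=
  GTF.tow_of EWG.q_rel ftow
    (GTF.tlv_of EWH.q_qbl EWH.q_vkr EWH.q_krs EWH.q_trn EWH.q_tpf EWH.q_cmp GTW.twr)

theorem dsf : ETG.Stmt_DSF := DQX.a_dsf DQX.q_qxf

/-- The Elementary Type Conjecture for the fields in which `-1` is a square. -/
theorem gen : ETG.Stmt_GEN := ETG.a_gen dsf tow

end Pool.Agent.ETB
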